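import Pool.Agent.Q75.BM.Stm

set_option autoImplicit false

namespace Pool.Agent.Q221.BM

open Filter Topology MeasureTheory Set
open Pool.Agent.Q75.BM

theorem wmat_append (u v : List Ltr) (l : ℂ) : wmat (u ++ v) l = wmat u l * wmat v l := by
  simp [wmat]

theorem t_CH (h1 : S_E1) (h2 : S_E2) (h3 : S_HB) : S_CH := by
  intro ε h0 hε l
  obtain ⟨hb1, hb2, hb3⟩ := h3
  have hcn : ∀ n : ℕ, 0 ≤ Ew ε n (fun w => Real.log (hs (wmat w l))) ∧
      Ew ε n (fun w => Real.log (hs (wmat w l))) ≤ n * Real.log (‖l‖ + 2) := by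
    intro n
    obtain ⟨_, _, e3, e4⟩ := h1 ε h0 hε n
    constructor
    · have := e4 (fun _ => 0) (fun w => Real.log (hs (wmat w l)))
        (fun w _ => ((hb3 w).2 l).1)
      rwa [e3] at this
    · have := e4 (fun w => Real.log (hs (wmat w l))) (fun _ => n * Real.log (‖l‖ + 2))
        (fun w hw => by
          have := ((hb3 w).2 l).2
          rwa [hw] at this)
      rwa [e3] at this
  have hsub : Subadditive (fun n : ℕ => Ew ε n (fun w => Real.log (hs (wmat w l)))) := by
    intro m n
    show Ew ε (m + n) (fun w => Real.log (hs (wmat w l))) ≤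
      Ew ε m (fun w => Real.log (hs (wmat w l))) + Ew ε n (fun w => Real.log (hs (wmat w l)))
    obtain ⟨a1, a2, a3, a4⟩ := h1 ε h0 hε m
    obtain ⟨b1, b2, b3, b4⟩ := h1 ε h0 hε n
    rw [(h2 ε h0 hε).1 m n]
    have key : ∀ u : List Ltr, u.length = m →
        Ew ε n (fun v => Real.log (hs (wmat (u ++ v) l))) ≤
        Real.log (hs (wmat u l)) + Ew ε n (fun w => Real.log (hs (wmat w l))) := by
      intro u _
      have hle : Ew ε n (fun v => Real.log (hs (wmat (u ++ v) l))) ≤
          Ew ε n (fun v => Real.log (hs (wmat u l)) + Real.log (hs (wmat v l))) := by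
        refine b4 _ _ fun v _ => ?_
        rw [wmat_append]
        have p1 : 0 < hs (wmat u l) := lt_of_lt_of_le one_pos (hb1 _)
        have p2 : 0 < hs (wmat v l) := lt_of_lt_of_le one_pos (hb1 _)
        have p3 : 0 < hs (wmat u l * wmat v l) := lt_of_lt_of_le one_pos (hb1 _)
        rw [← Real.log_mul p1.ne' p2.ne']
        exact Real.log_le_log p3 (hb2 _ _)
      refine hle.trans (le_of_eq ?_)
      rw [b1 (fun _ => Real.log (hs (wmat u l))) (fun v => Real.log (hs (wmat v l))), b3]
    refine (a4 _ (fun u => Real.log (hs (wmat u l)) +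
      Ew ε n (fun w => Real.log (hs (wmat w l)))) key).trans (le_of_eq ?_)
    rw [a1 (fun u => Real.log (hs (wmat u l)))
      (fun _ => Ew ε n (fun w => Real.log (hs (wmat w l)))), a3]
  have hbdd : BddBelow (range fun n : ℕ =>
      Ew ε n (fun w => Real.log (hs (wmat w l))) / n) := by
    refine ⟨0, ?_⟩
    rintro _ ⟨n, rfl⟩
    exact div_nonneg (hcn n).1 (Nat.cast_nonneg n)
  have ht := hsub.tendsto_lim hbdd
  refine ⟨?_, fun n => ⟨div_nonneg (hcn n).1 (Nat.cast_nonneg n), ?_⟩⟩
  · have : chi ε l = hsub.lim := ht.limUnder_eq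
    rw [this]
    exact ht
  · rcases Nat.eq_zero_or_pos n with rfl | hn
    · simp
      exact Real.log_nonneg (by linarith [norm_nonneg l])
    · rw [div_le_iff₀ (by exact_mod_cast hn)]
      have := (hcn n).2
      linarith [mul_comm (n : ℝ) (Real.log (‖l‖ + 2))]

end Pool.Agent.Q221.BM
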