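import Pool.Agent.Q75.BM.Stm

set_option autoImplicit false

namespace Pool.Agent.Q221.BM

open Filter Topology MeasureTheory Set
open Pool.Agent.Q75.BM

/-- the inverse letter -/
def linv : Ltr → Ltr
  | .a => .ai
  | .ai => .a
  | .d => .di
  | .di => .d

theorem elt_linv (s : Ltr) : elt (linv s) = (elt s)⁻¹ := by
  cases s <;> (funext l; simp [elt, mat, linv])

theorem gp_words (g : ℂ → PSL) (hg : g ∈ Gp) : ∃ w : List Ltr, (w.map elt).prod = g := by
  unfold Gp at hg
  induction hg using Subgroup.closure_induction with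
  | mem x hx =>
    rcases hx with rfl | rfl
    · exact ⟨[Ltr.a], by simp⟩
    · exact ⟨[Ltr.d], by simp⟩
  | one => exact ⟨[], by simp⟩
  | mul x y _ _ ihx ihy =>
    obtain ⟨u, rfl⟩ := ihx
    obtain ⟨v, rfl⟩ := ihy
    exact ⟨u ++ v, by simp⟩
  | inv x _ ih =>
    obtain ⟨u, rfl⟩ := ih
    refine ⟨(u.map linv).reverse, ?_⟩
    rw [List.prod_inv_reverse, List.map_reverse, List.map_map, List.map_map]
    congr 2
    apply List.map_congr_left
    intro s _
    exact elt_linv s

theorem gp_countable : Countable Gp := by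
  classical
  choose f hf using gp_words
  have hinj : Function.Injective (fun g : Gp => f g.1 g.2) := by
    intro g g' h
    apply Subtype.ext
    rw [← hf g.1 g.2, ← hf g'.1 g'.2]
    have h' : f g.1 g.2 = f g'.1 g'.2 := h
    rw [h']
  exact hinj.countable

theorem zeros_countable (f : ℂ → ℂ) (hf : Differentiable ℂ f) (l₀ : ℂ) (h : f l₀ ≠ 0) :
    {l : ℂ | f l = 0}.Countable := by
  have h1 : AnalyticOnNhd ℂ f univ := fun z _ => hf.analyticAt z
  have h2 := h1.preimage_zero_mem_codiscrete h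
  have h3 : {l : ℂ | f l = 0}ᶜ ∈ codiscreteWithin (univ : Set ℂ) := by
    have : {l : ℂ | f l = 0}ᶜ = f ⁻¹' {0}ᶜ := by
      ext z; simp
    rw [this]
    exact h2
  have h4 := isDiscrete_of_codiscreteWithin (U := (univ : Set ℂ)) (s := {l : ℂ | f l = 0}) h3
  rw [inter_univ] at h4
  exact (HereditarilyLindelofSpace.isLindelof _).countable_of_isDiscrete h4

theorem pr_one_of (M : SL) (h01 : M.1 0 1 = 0) (h10 : M.1 1 0 = 0)
    (h00 : M.1 0 0 = M.1 1 1) : pr M = 1 := by
  have hc : M ∈ Subgroup.center SL := by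
    rw [Matrix.SpecialLinearGroup.mem_center_iff]
    refine ⟨M.1 0 0, ?_, ?_⟩
    · have := M.2
      rw [Matrix.det_fin_two, h01, h10, ← h00] at this
      simp only [Fintype.card_fin]
      rw [pow_two]
      simpa using this
    · ext i j
      fin_cases i <;> fin_cases j <;> simp [Matrix.scalar_apply, Matrix.diagonal]
      · exact h01.symm
      · exact h10.symm
      · exact h00
  exact (QuotientGroup.eq_one_iff (N := Subgroup.center SL) M).2 hc

theorem t_FA (h1 : S_HO) (h2 : S_NR) : S_FA := by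
  have hcount := gp_countable
  have hsub : {l : ℂ | ¬ Function.Injective (rho l)} ⊆
      ⋃ g : Gp, ⋃ (_ : g ≠ 1), {l : ℂ | rho l g = 1} := by
    intro l hl
    have hl' : ¬ Function.Injective (rho l) := hl
    rw [injective_iff_map_eq_one] at hl'
    push Not at hl'
    obtain ⟨g, hg1, hg2⟩ := hl'
    simp only [mem_iUnion]
    exact ⟨g, hg2, hg1⟩
  refine Countable.mono hsub ?_
  refine countable_iUnion fun g => ?_
  refine Set.countable_iUnion fun hg => ?_
  obtain ⟨M, hM1, hM2⟩ := h1 g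
  -- a parameter where g is not trivial
  have hex : ∃ l₀ : ℂ, rho l₀ g ≠ 1 := by
    by_contra hno
    push Not at hno
    apply hg
    apply Subtype.ext
    funext l
    exact hno l
  obtain ⟨l₀, hl₀⟩ := hex
  have hz : ∀ l : ℂ, rho l g = 1 → (M l).1 0 1 = 0 ∧ (M l).1 1 0 = 0 ∧
      (M l).1 0 0 - (M l).1 1 1 = 0 := by
    intro l hl
    rw [hM2 l] at hl
    have hl2 : pr (M l) = pr 1 := by rw [hl, map_one]
    rcases h2.2 _ _ hl2 with h | h
    · rw [h]
      simp
    · rw [h]
      simp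
  have hnz : (M l₀).1 0 1 ≠ 0 ∨ (M l₀).1 1 0 ≠ 0 ∨ (M l₀).1 0 0 - (M l₀).1 1 1 ≠ 0 := by
    by_contra hno
    push Not at hno
    apply hl₀
    rw [hM2 l₀]
    exact pr_one_of _ hno.1 hno.2.1 (sub_eq_zero.1 hno.2.2)
  rcases hnz with h | h | h
  · exact (zeros_countable (fun l => (M l).1 0 1) (hM1 0 1) l₀ h).mono
      (fun l hl => (hz l hl).1)
  · exact (zeros_countable (fun l => (M l).1 1 0) (hM1 1 0) l₀ h).mono
      (fun l hl => (hz l hl).2.1)
  · exact (zeros_countable (fun l => (M l).1 0 0 - (M l).1 1 1)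
      ((hM1 0 0).sub (hM1 1 1)) l₀ h).mono (fun l hl => (hz l hl).2.2)

end Pool.Agent.Q221.BM
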